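import Pool.Agent.H29.Thresh.Final

namespace Pool.Agent.Results.MP_017f7c_pr.SharpThreshold

open Filter Topology Pool.Agent.H29.Thresh

/-- Let `d ≥ 3` and let `F k` be a sequence of `d`-regular graphs on `n k` vertices, `n k → ∞`,
such that every subgraph with at least `3` and at most `n k - 3` vertices has at least `d + 1`
boundary edges. Then the critical probability `pc k` (the unique `p` for which `G(n k, p)`
contains a copy of `F k` with probability `1/2`) and the expectation threshold `pe k` exist, and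
`pc k / pe k → 1`. -/
theorem result (d : ℕ) (hd : 3 ≤ d) (n : ℕ → ℕ) (hn : Tendsto n atTop atTop)
    (hpos : ∀ k, 0 < n k) (F : ∀ k, SimpleGraph (Fin (n k)))
    (hreg : ∀ k, ∀ v, ((F k).neighborSet v).ncard = d) (hb : ∀ k, SparseBdry d (F k)) :
    ∃ pc pe : ℕ → ℝ,
      (∀ k, IsPc (F k) (pc k) ∧ ∀ p, IsPc (F k) p → p = pc k) ∧
      (∀ k, IsPe (F k) (pe k)) ∧ (∀ k, 0 < pe k) ∧
      Tendsto (fun k => pc k / pe k) atTop (𝓝 1) :=
  main d hd n hn hpos F hreg hb

end Pool.Agent.Results.MP_017f7c_pr.SharpThreshold
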